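import Pool.Agent.H75.QF.Targets
import Pool.Agent.H75.QG.Key

/-!
# The final form: planting rarely changes a gate (KEYF)
-/

namespace Pool.Agent.H75.QF

open Finset Pool.Agent.H68.AC Pool.Agent.H75.QA Pool.Agent.H75.QG

/-- More constraints cover more vertices. -/
theorem VS_mono {k r : ℕ} (e : Fin k → Fin r → Fin k) {H H' : Finset (Fin k)} (h : H ⊆ H') :
    VS e H ⊆ VS e H' := Finset.biUnion_subset_biUnion_of_subset_left _ h

theorem keyf_t (hFLA : T_FLAG) (hEAB : T_EABG) (hLOCW : T_LOCWG) (hCOR : T_CORG) : T_KEYF := by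
  intro k r s d M A _ _ C w e q β h γ h₁ hE hG hh hw hq hq1 hqw hA y g
  classical
  have hw1 : (1 : ℝ) ≤ w := by exact_mod_cast hw
  set N : ℝ := (Fintype.card A : ℝ) with hN
  have hN1 : 1 ≤ N := by rw [hN]; exact_mod_cast hA
  have hN0 : 0 < N := by linarith
  have hqd : 0 < q ^ d := by positivity
  have hqd1 : q ^ d ≤ 1 := pow_le_one₀ hq.le hq1
  set B : ℝ := 2 * w / q ^ d with hB
  have hB1 : 1 ≤ B := by
    rw [hB, le_div_iff₀ hqd]
    linarith
  have hVS : ∀ H : Finset (Fin k), (VS e H).card ≤ k := fun H => by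
    have := Finset.card_le_univ (VS e H)
    simpa using this
  -- the bound of EAB
  have hb : ∀ (H : Finset (Fin k)) (g' : Fin s), ∑ x : Fin k → A,
      ∑ S : Fin d → VV k r A → Bool, WS q S * ind (EAG C w (K e x H) (K e x H) S y g') ≤
      8 * (B ^ H.card * (N ^ k / N ^ (VS e H).card)) := by
    intro H g'
    have h1 := hEAB k r s d M A C w e H q y g' hw hq hq1 hqw
    have h2 : N ^ (k - (VS e H).card) = N ^ k / N ^ (VS e H).card := pow_sub₀ N hN0.ne' (hVS H)
    have h3 : q ^ (d * H.card) = (q ^ d) ^ H.card := pow_mul q d H.card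
    rw [h3] at h1
    have h4 : 0 < (q ^ d) ^ H.card := by positivity
    rw [mul_comm, ← le_div_iff₀ h4] at h1
    refine h1.trans (le_of_eq ?_)
    rw [hB, div_pow, ← h2, hN]
    field_simp
  set L := univ.filter (fun H : Finset (Fin k) => β < (VS e H).card ∧ H.card ≤ 2 * h) with hLdef
  set Sm := univ.filter (fun H : Finset (Fin k) => H ≠ ∅ ∧ H.card ≤ h) with hSm
  -- pointwise
  have hpt : ∀ x : Fin k → A, ind (C.val (pl (K e x univ) y) g ≠ C.val y g) ≤
      ∑ S : Fin d → VV k r A → Bool, WS q S * (ind (¬ ShalG C w e x S y) +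
        ∑ H ∈ L, ∑ g' : Fin s, ind (EAG C w (K e x H) (K e x H) S y g') +
        ∑ H ∈ Sm, ind (EAG C w (K e x H) (K e x H) S y g)) := by
    intro x
    have h0 : ind (C.val (pl (K e x univ) y) g ≠ C.val y g) =
        ∑ S : Fin d → VV k r A → Bool, WS q S * ind (C.val (pl (K e x univ) y) g ≠ C.val y g) := by
      rw [← Finset.sum_mul, sum_WS, one_mul]
    rw [h0]
    refine Finset.sum_le_sum (fun S _ => mul_le_mul_of_nonneg_left ?_ (WS_nonneg hq.le hq1 S))
    have hL0 : 0 ≤ ∑ H ∈ L, ∑ g' : Fin s, ind (EAG C w (K e x H) (K e x H) S y g') :=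
      Finset.sum_nonneg (fun _ _ => Finset.sum_nonneg (fun _ _ => ind_nonneg _))
    have hS0 : 0 ≤ ∑ H ∈ Sm, ind (EAG C w (K e x H) (K e x H) S y g) :=
      Finset.sum_nonneg (fun _ _ => ind_nonneg _)
    by_cases hne : C.val (pl (K e x univ) y) g ≠ C.val y g
    · rw [ind_true hne]
      by_cases hS : ShalG C w e x S y
      · by_cases hL : ∀ H : Finset (Fin k), β < (VS e H).card → H.card ≤ 2 * h → ∀ g,
            ¬ EAG C w (K e x H) (K e x H) S y g
        · obtain ⟨H, h1, h2, h3⟩ := triG hFLA hLOCW hCOR C w e β h hE hh x S y g hS hL hne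
          have h4 : (1 : ℝ) ≤ ∑ H ∈ Sm, ind (EAG C w (K e x H) (K e x H) S y g) := by
            rw [← ind_true h3]
            exact Finset.single_le_sum (f := fun H => ind (EAG C w (K e x H) (K e x H) S y g))
              (fun _ _ => ind_nonneg _) (by rw [hSm, Finset.mem_filter]; exact ⟨mem_univ _, h1, h2⟩)
          have h5 := ind_nonneg (¬ ShalG C w e x S y)
          linarith
        · push Not at hL
          obtain ⟨H, h1, h2, g', h3⟩ := hL
          have h4 : (1 : ℝ) ≤ ∑ H ∈ L, ∑ g' : Fin s, ind (EAG C w (K e x H) (K e x H) S y g') := by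
            rw [← ind_true h3]
            refine le_trans ?_ (Finset.single_le_sum
              (f := fun H => ∑ g' : Fin s, ind (EAG C w (K e x H) (K e x H) S y g'))
              (fun _ _ => Finset.sum_nonneg (fun _ _ => ind_nonneg _))
              (show H ∈ L by rw [hLdef, Finset.mem_filter]; exact ⟨mem_univ _, h1, h2⟩))
            exact Finset.single_le_sum (f := fun g' => ind (EAG C w (K e x H) (K e x H) S y g'))
              (fun _ _ => ind_nonneg _) (mem_univ g')
          have h5 := ind_nonneg (¬ ShalG C w e x S y)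
          linarith
      · rw [ind_true hS]
        linarith
    · rw [ind_false hne]
      have h5 := ind_nonneg (¬ ShalG C w e x S y)
      linarith
  -- the large sets
  have hlarge : ∑ x : Fin k → A, ∑ S : Fin d → VV k r A → Bool, WS q S *
      (∑ H ∈ L, ∑ g' : Fin s, ind (EAG C w (K e x H) (K e x H) S y g')) ≤
      N ^ k * (8 * (2 ^ k * (s * (B ^ (2 * h) / N ^ (β + 1))))) := by
    have h1 : ∑ x : Fin k → A, ∑ S : Fin d → VV k r A → Bool, WS q S *
        (∑ H ∈ L, ∑ g' : Fin s, ind (EAG C w (K e x H) (K e x H) S y g')) =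
        ∑ H ∈ L, ∑ g' : Fin s, ∑ x : Fin k → A, ∑ S : Fin d → VV k r A → Bool,
          WS q S * ind (EAG C w (K e x H) (K e x H) S y g') := by
      have h2 : ∀ x : Fin k → A, ∑ S : Fin d → VV k r A → Bool, WS q S *
          (∑ H ∈ L, ∑ g' : Fin s, ind (EAG C w (K e x H) (K e x H) S y g')) =
          ∑ H ∈ L, ∑ g' : Fin s, ∑ S : Fin d → VV k r A → Bool,
          WS q S * ind (EAG C w (K e x H) (K e x H) S y g') := by
        intro x
        simp only [Finset.mul_sum]
        rw [Finset.sum_comm]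
        refine Finset.sum_congr rfl (fun H _ => ?_)
        rw [Finset.sum_comm]
      rw [Finset.sum_congr rfl (fun x _ => h2 x), Finset.sum_comm]
      refine Finset.sum_congr rfl (fun H _ => ?_)
      rw [Finset.sum_comm]
    rw [h1]
    calc ∑ H ∈ L, ∑ g' : Fin s, ∑ x : Fin k → A, ∑ S : Fin d → VV k r A → Bool,
          WS q S * ind (EAG C w (K e x H) (K e x H) S y g')
        ≤ ∑ H ∈ L, ∑ _g' : Fin s, 8 * (B ^ (2 * h) * (N ^ k / N ^ (β + 1))) := by
          refine Finset.sum_le_sum (fun H hH => Finset.sum_le_sum (fun g' _ => ?_))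
          rw [hLdef, Finset.mem_filter] at hH
          refine (hb H g').trans ?_
          refine mul_le_mul_of_nonneg_left ?_ (by norm_num)
          refine mul_le_mul (pow_le_pow_right₀ hB1 hH.2.2) ?_ (by positivity) (by positivity)
          exact div_le_div_of_nonneg_left (by positivity) (by positivity)
            (pow_le_pow_right₀ hN1 hH.2.1)
      _ = L.card * (s * (8 * (B ^ (2 * h) * (N ^ k / N ^ (β + 1))))) := by
          simp only [Finset.sum_const, Finset.card_univ, Fintype.card_fin, nsmul_eq_mul]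
      _ ≤ 2 ^ k * (s * (8 * (B ^ (2 * h) * (N ^ k / N ^ (β + 1))))) := by
          refine mul_le_mul_of_nonneg_right ?_ (by positivity)
          have h3 : L.card ≤ 2 ^ k := by
            refine (Finset.card_le_univ L).trans ?_
            simp
          exact_mod_cast h3
      _ = N ^ k * (8 * (2 ^ k * (s * (B ^ (2 * h) / N ^ (β + 1))))) := by ring
  -- the small sets
  have hsmall : ∑ x : Fin k → A, ∑ S : Fin d → VV k r A → Bool, WS q S *
      (∑ H ∈ Sm, ind (EAG C w (K e x H) (K e x H) S y g)) ≤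
      N ^ k * (8 * (((1 + 2 * w / (q ^ d * N ^ γ)) ^ k - 1) + 2 ^ k * (B ^ h / N ^ (γ * h₁)))) := by
    set u : ℝ := 2 * w / (q ^ d * N ^ γ) with hu
    have hu0 : 0 ≤ u := by positivity
    have huB : u = B / N ^ γ := by rw [hu, hB]; field_simp
    have h1 : ∑ x : Fin k → A, ∑ S : Fin d → VV k r A → Bool, WS q S *
        (∑ H ∈ Sm, ind (EAG C w (K e x H) (K e x H) S y g)) =
        ∑ H ∈ Sm, ∑ x : Fin k → A, ∑ S : Fin d → VV k r A → Bool,
          WS q S * ind (EAG C w (K e x H) (K e x H) S y g) := by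
      have h2 : ∀ x : Fin k → A, ∑ S : Fin d → VV k r A → Bool, WS q S *
          (∑ H ∈ Sm, ind (EAG C w (K e x H) (K e x H) S y g)) =
          ∑ H ∈ Sm, ∑ S : Fin d → VV k r A → Bool,
          WS q S * ind (EAG C w (K e x H) (K e x H) S y g) := by
        intro x
        simp only [Finset.mul_sum]
        rw [Finset.sum_comm]
      rw [Finset.sum_congr rfl (fun x _ => h2 x), Finset.sum_comm]
    rw [h1]
    have h3 : ∑ H ∈ (univ : Finset (Fin k)).powerset, u ^ H.card = (1 + u) ^ k := by
      have := Finset.sum_pow_mul_eq_add_pow u 1 (univ : Finset (Fin k))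
      simp only [one_pow, mul_one, Finset.card_univ, Fintype.card_fin] at this
      rw [this, add_comm]
    have h4 : ∑ H ∈ Sm, u ^ H.card ≤ (1 + u) ^ k - 1 := by
      rw [← h3, Finset.powerset_univ, ← Finset.add_sum_erase univ _ (mem_univ ∅)]
      simp only [Finset.card_empty, pow_zero, add_sub_cancel_left]
      refine Finset.sum_le_sum_of_subset_of_nonneg ?_ (fun _ _ _ => by positivity)
      intro H hH
      rw [hSm, Finset.mem_filter] at hH
      exact Finset.mem_erase.2 ⟨hH.2.1, mem_univ _⟩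
    -- every set
    have h5 : ∀ H ∈ Sm, B ^ H.card * (N ^ k / N ^ (VS e H).card) ≤
        N ^ k * u ^ H.card + N ^ k * (B ^ h / N ^ (γ * h₁)) := by
      intro H hH
      rw [hSm, Finset.mem_filter] at hH
      have hp1 : 0 ≤ N ^ k * u ^ H.card := by positivity
      have hp2 : 0 ≤ N ^ k * (B ^ h / N ^ (γ * h₁)) := by positivity
      by_cases hc : H.card ≤ h₁
      · have h5 : N ^ (γ * H.card) ≤ N ^ (VS e H).card := pow_le_pow_right₀ hN1 (hG H hc)
        have h6 : u ^ H.card = B ^ H.card / N ^ (γ * H.card) := by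
          rw [huB, div_pow, pow_mul]
        have h7 : B ^ H.card * (N ^ k / N ^ (VS e H).card) ≤ N ^ k * u ^ H.card := by
          rw [h6]
          calc B ^ H.card * (N ^ k / N ^ (VS e H).card) ≤ B ^ H.card * (N ^ k / N ^ (γ * H.card)) :=
                mul_le_mul_of_nonneg_left (div_le_div_of_nonneg_left (by positivity)
                  (by positivity) h5) (by positivity)
            _ = N ^ k * (B ^ H.card / N ^ (γ * H.card)) := by ring
        linarith
      · have hc' : h₁ ≤ H.card := by omega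
        obtain ⟨H', hH', hcard⟩ := Finset.exists_subset_card_eq hc'
        have h8 : γ * h₁ ≤ (VS e H).card := by
          have := hG H' hcard.le
          rw [hcard] at this
          exact this.trans (Finset.card_le_card (VS_mono e hH'))
        have h9 : B ^ H.card * (N ^ k / N ^ (VS e H).card) ≤ N ^ k * (B ^ h / N ^ (γ * h₁)) := by
          calc B ^ H.card * (N ^ k / N ^ (VS e H).card) ≤ B ^ h * (N ^ k / N ^ (γ * h₁)) := by
                refine mul_le_mul (pow_le_pow_right₀ hB1 hH.2.2) ?_ (by positivity) (by positivity)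
                exact div_le_div_of_nonneg_left (by positivity) (by positivity)
                  (pow_le_pow_right₀ hN1 h8)
            _ = N ^ k * (B ^ h / N ^ (γ * h₁)) := by ring
        linarith
    calc ∑ H ∈ Sm, ∑ x : Fin k → A, ∑ S : Fin d → VV k r A → Bool,
          WS q S * ind (EAG C w (K e x H) (K e x H) S y g)
        ≤ ∑ H ∈ Sm, 8 * (N ^ k * u ^ H.card + N ^ k * (B ^ h / N ^ (γ * h₁))) := by
          refine Finset.sum_le_sum (fun H hH => ?_)
          exact (hb H g).trans (mul_le_mul_of_nonneg_left (h5 H hH) (by norm_num))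
      _ = 8 * N ^ k * ∑ H ∈ Sm, u ^ H.card + Sm.card * (8 * (N ^ k * (B ^ h / N ^ (γ * h₁)))) := by
          rw [Finset.mul_sum, ← nsmul_eq_mul, ← Finset.sum_const, ← Finset.sum_add_distrib]
          exact Finset.sum_congr rfl (fun H _ => by ring)
      _ ≤ 8 * N ^ k * ((1 + u) ^ k - 1) + 2 ^ k * (8 * (N ^ k * (B ^ h / N ^ (γ * h₁)))) := by
          refine add_le_add (mul_le_mul_of_nonneg_left h4 (by positivity)) ?_
          refine mul_le_mul_of_nonneg_right ?_ (by positivity)
          have h6 : Sm.card ≤ 2 ^ k := by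
            refine (Finset.card_le_univ Sm).trans ?_
            simp
          exact_mod_cast h6
      _ = N ^ k * (8 * (((1 + u) ^ k - 1) + 2 ^ k * (B ^ h / N ^ (γ * h₁)))) := by ring
  calc ∑ x : Fin k → A, ind (C.val (pl (K e x univ) y) g ≠ C.val y g)
      ≤ ∑ x : Fin k → A, ∑ S : Fin d → VV k r A → Bool, WS q S * (ind (¬ ShalG C w e x S y) +
        ∑ H ∈ L, ∑ g' : Fin s, ind (EAG C w (K e x H) (K e x H) S y g') +
        ∑ H ∈ Sm, ind (EAG C w (K e x H) (K e x H) S y g)) := Finset.sum_le_sum (fun x _ => hpt x)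
    _ = ∑ x : Fin k → A, ∑ S : Fin d → VV k r A → Bool, WS q S * ind (¬ ShalG C w e x S y) +
        ∑ x : Fin k → A, ∑ S : Fin d → VV k r A → Bool, WS q S *
          (∑ H ∈ L, ∑ g' : Fin s, ind (EAG C w (K e x H) (K e x H) S y g')) +
        ∑ x : Fin k → A, ∑ S : Fin d → VV k r A → Bool, WS q S *
          (∑ H ∈ Sm, ind (EAG C w (K e x H) (K e x H) S y g)) := by
        rw [← Finset.sum_add_distrib, ← Finset.sum_add_distrib]
        refine Finset.sum_congr rfl (fun x _ => ?_)
        rw [← Finset.sum_add_distrib, ← Finset.sum_add_distrib]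
        exact Finset.sum_congr rfl (fun S _ => by ring)
    _ ≤ ∑ x : Fin k → A, ∑ S : Fin d → VV k r A → Bool, WS q S * ind (¬ ShalG C w e x S y) +
        N ^ k * (8 * (2 ^ k * (s * (B ^ (2 * h) / N ^ (β + 1))))) +
        N ^ k * (8 * (((1 + 2 * w / (q ^ d * N ^ γ)) ^ k - 1) + 2 ^ k * (B ^ h / N ^ (γ * h₁)))) :=
        add_le_add (add_le_add le_rfl hlarge) hsmall
    _ = N ^ k * etaF k (Fintype.card A) s w β h d γ h₁ q +
      ∑ x : Fin k → A, ∑ S : Fin d → VV k r A → Bool, WS q S * ind (¬ ShalG C w e x S y) := by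
        unfold etaF
        rw [← hN, ← hB]
        ring

end Pool.Agent.H75.QF
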