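import Pool.Agent.H75.QG.Final
import Pool.Agent.H75.QF.Main
import Pool.Agent.H75.QF.Key
import Pool.Agent.H33.QF.ENF
import Pool.Agent.H33.QF.RLB
import Pool.Agent.H33.QF.PARF
import Pool.Agent.H48.QF.HGF
import Pool.Agent.H48.QF.NULF

/-!
# The final form: the main theorem
-/

namespace Pool.Agent.H75.QF

open Finset Filter Pool.Agent.H68.AC Pool.Agent.H75.QA Pool.Agent.H75.QG

theorem MAINF : T_MAINF :=
  mainf_t (keyf_t hFLAG hEABG hLOCWG hCORG) hADEEPG Pool.Agent.H48.QF.NULF hyb_t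
    Pool.Agent.H90.QG.enbg Pool.Agent.H33.QF.rlb Pool.Agent.H48.QF.HGF Pool.Agent.H33.QF.enf
    Pool.Agent.H33.QF.parf

end Pool.Agent.H75.QF
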