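import Pool.Agent.H75.QG.Targets
import Pool.Agent.H68.GP.Defs

/-!
# The final form of the quantum theorem: module targets

Gap, clauses of exact width `w`, `2 ^ ((1/2 - ε) w)` queries, general gates, observers who know the
unsatisfiable formula.
-/

namespace Pool.Agent.H75.QF

open Finset Filter Pool.Agent.H68.AC Pool.Agent.H75.QA Pool.Agent.H75.QG Pool.Agent.H68.GP

/-- The main error term: `N = |A|`, trees of depth at most `D`. -/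
noncomputable def etaF (k N s D β h d γ h₁ : ℕ) (q : ℝ) : ℝ :=
  8 * (2 ^ k * (s * ((2 * D / q ^ d) ^ (2 * h) / (N : ℝ) ^ (β + 1))) +
    (((1 + 2 * D / (q ^ d * (N : ℝ) ^ γ)) ^ k - 1) +
      2 ^ k * ((2 * D / q ^ d) ^ h / (N : ℝ) ^ (γ * h₁))))

/-- KEYF: for every input `y` planting a random solution rarely changes the value of a gate, unless the
trees are deep. Only sets of at most `h₁` constraints are required to expand by `γ`. -/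
def T_KEYF : Prop := ∀ (k r s d M : ℕ) (A : Type) [DecidableEq A] [Fintype A]
  (C : CktG (VV k r A) s d M) (D : ℕ) (e : Fin k → Fin r → Fin k) (q : ℝ) (β h γ h₁ : ℕ), Expd e β h →
  Expg e γ h₁ → 1 ≤ h → 1 ≤ D → 0 < q → q ≤ 1 → q * D ≤ 1 → 1 ≤ Fintype.card A →
  ∀ (y : VV k r A → Bool) (g : Fin s),
  ∑ x : Fin k → A, ind (C.val (pl (K e x univ) y) g ≠ C.val y g) ≤
    (Fintype.card A : ℝ) ^ k * etaF k (Fintype.card A) s D β h d γ h₁ q +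
      ∑ x : Fin k → A, ∑ S : Fin d → VV k r A → Bool, WS q S * ind (¬ ShalG C D e x S y)

/-- HGF: hypergraphs with both kinds of expansion; the scopes have size `r + 2 + γ` and small sets expand
by `γ`, where `γ + 1` may be `L` times `r`. -/
def T_HGF : Prop := ∀ (β : ℝ) (L : ℕ), 0 < β → β < 1 → ∃ c₀ c₁ : ℝ, 0 < c₀ ∧ 0 < c₁ ∧
  ∀ (δ : ℝ) (γ r k h₁ : ℕ), 0 < δ → c₀ ≤ δ * (r + 1 + γ) → 1 ≤ r → 1 + γ ≤ L * r →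
  γ * h₁ ≤ c₁ * k → 1 ≤ k →
  ∃ e : Fin k → Fin (r + 1 + γ) → Fin k, Expd e ⌊β * k⌋₊ ⌊δ * k⌋₊ ∧ Expg e γ h₁

/-- NULF: in a random input every `x` selects few true variables. -/
def T_NULF : Prop := ∀ (k r g : ℕ) (A : Type) [DecidableEq A] [Fintype A] (e : Fin k → Fin r → Fin k)
  (p : ℝ), 0 ≤ p → p ≤ 1 → ∑ y : VV k r A → Bool, wz p y *
    ind (∃ x : Fin k → A, g < (univ.filter (fun j => y (pos e x j) = true)).card) ≤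
    (Fintype.card A : ℝ) ^ k * 2 ^ k * p ^ (g + 1)

/-- ENF: the encoding by formulas with clauses of exact width `w`. -/
def T_ENF : Prop := ∀ (k r ℓ n m w : ℕ) (e : Fin k → Fin r → Fin k), 1 ≤ k → 1 ≤ w →
  k * ℓ + 1 ≤ n → (r + 1) * ℓ ≤ w → w < n →
  ∃ (σ : Fin m × Fin n × Bool → Bool) (inc : Fin m × Fin n × Bool → Inp (VV k r (Fin ℓ → Bool))),
    (∀ y, KCNF w (enc σ inc y)) ∧
    (∀ y, fE e y → Satisfiable (enc σ inc y)) ∧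
    (∀ y (g : ℕ), (∀ x : Fin k → Fin ℓ → Bool,
      (univ.filter (fun j => y (pos e x j) = true)).card ≤ g) →
      ∀ a, (m / (k * 2 ^ w)) * (k - g) ≤ viol (enc σ inc y) a)

/-- RLB: change the signs of the inputs of a circuit. -/
def T_RLB : Prop := ∀ (I : Type) (s M : ℕ) (C : GCircuit I s M) (σ : I → Bool),
  ∃ C' : GCircuit I s M, C'.out = C.out ∧ (∀ d, C.DepthLE d → C'.DepthLE d) ∧
    ∀ y g, (C'.Holds y g ↔ C.Holds (fun i => xor (σ i) (y i)) g)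

/-- PARF: the parameters. -/
def T_PARF : Prop := ∀ ε : ℝ, 0 < ε → ε ≤ 1 → ∃ (β : ℝ) (L : ℕ), 0 < β ∧ β < 1 ∧
  ∀ c₀ c₁ : ℝ, 0 < c₀ → 0 < c₁ → ∃ c : ℕ, 1 ≤ c ∧ ∀ᶠ n : ℕ in atTop, ∀ d w : ℕ, 1 ≤ d →
  c * d * Nat.log 2 n ≤ w → c * w ≤ n → ∃ (k ℓ r γ h₁ : ℕ) (δ p : ℝ),
    1 ≤ k ∧ 1 ≤ ℓ ∧ k * ℓ + 1 ≤ n ∧ (r + 1 + γ + 1) * ℓ ≤ w ∧ 1 ≤ w ∧ w < n ∧
    (k : ℝ) ≤ ε / 2 * n ∧ 0 < δ ∧ c₀ ≤ δ * (r + 1 + γ) ∧ 1 ≤ r ∧ 1 + γ ≤ L * r ∧ γ * h₁ ≤ c₁ * k ∧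
    1 ≤ ⌊δ * k⌋₊ ∧ 0 < p ∧ p ≤ 1 / 2 ∧
    ∀ t : ℕ, 1 ≤ t → t ^ (c * d) ≤ 2 ^ w → ∃ (D : ℕ) (q : ℝ), 1 ≤ D ∧ 0 < q ∧ q ≤ 1 / 2 ∧
      64 * ((t : ℝ) + 1) * D * q ≤ p ∧
      ∀ (s : ℕ) (T : ℝ), (s : ℝ) ≤ 2 ^ ((1 - ε) * n) → 0 ≤ T → T ≤ 2 ^ ((1 / 2 - ε) * w) →
        (2 ^ ℓ) ^ k * 2 ^ k * p ^ (⌊ε / 2 * k⌋₊ + 1) +
          4 * T * √(etaF k (2 ^ ℓ) s D ⌊β * k⌋₊ ⌊δ * k⌋₊ d γ h₁ q + 2 ^ t * deepG k s D t) ≤ 1 / t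

/-- MAINF: the main theorem. -/
def T_MAINF : Prop := ∀ ε : ℝ, 0 < ε → ε ≤ 1 → ∃ c : ℕ, 1 ≤ c ∧ ∀ᶠ n : ℕ in atTop, ∀ d w m : ℕ, 1 ≤ d →
  c * d * Nat.log 2 n ≤ w → c * w ≤ n → n * 2 ^ w ≤ m →
  ∃ (Ω : Type) (_ : Fintype Ω) (μ : Ω → ℝ) (φ₀ φ₁ : Ω → Fin m × Fin n × Bool → Bool),
    (∀ ω, 0 ≤ μ ω) ∧ ∑ ω, μ ω = 1 ∧
    (∀ ω, KCNF w (φ₀ ω) ∧ Far ε w (φ₀ ω) ∧ KCNF w (φ₁ ω) ∧ Satisfiable (φ₁ ω)) ∧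
    ∀ (t : ℕ) (κ : Type) [Fintype κ] (s : ℕ) (F : κ → GCircuit (Fin m × Fin n × Bool) s t)
      (V : (Fin m × Fin n × Bool → Bool) → Verifier κ) (χ : ∀ φ, EuclideanSpace ℂ (Fin (V φ).dim)),
      1 ≤ t → t ^ (c * d) ≤ 2 ^ w → Fintype.card κ ≤ 2 ^ t → (s : ℝ) ≤ 2 ^ ((1 - ε) * n) →
      (∀ i, (F i).DepthLE d) → (∀ φ, ((V φ).T : ℝ) ≤ 2 ^ ((1 / 2 - ε) * w)) → (∀ φ, ‖χ φ‖ = 1) →
      ∑ ω, μ ω * |(V (φ₀ ω)).prob (answersG F (φ₁ ω)) (χ (φ₀ ω)) -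
        (V (φ₀ ω)).prob (answersG F (φ₀ ω)) (χ (φ₀ ω))| ≤ 1 / t

end Pool.Agent.H75.QF
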