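import Pool.Agent.H75.QF.Final
import Pool.Agent.H75.QG.Lift

/-!
# Quantum SETH for constant-depth circuits: worst case form, deduced from the average case

For every `0 < ε ≤ 1` there is `c` such that the following holds for all large `n`, all `d ≥ 1`, all clause
widths `w` with `c * d * log₂ n ≤ w ≤ n / c` and all `m ≥ n * 2 ^ w`. The inputs are CNFs `φ` with `n`
variables and `m` clauses, each with exactly `w` literals (of distinct variables), given as `m × 2n`
incidence matrices. The promise problem: `φ` is satisfiable, or every assignment violates at least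
`(1 - ε) m / 2 ^ w` clauses (a random assignment violates `m / 2 ^ w` clauses on average).

Let `t ≥ 1` with `t ^ (c * d) ≤ 2 ^ w`. Let `F` be a family of at most `2 ^ t` circuits of depth at most `d`
with at most `2 ^ ((1 - ε) n)` gates each (no uniformity). The gates are arbitrary functions of any number of
sources (literals, earlier gates and their negations) which are constant on the assignments with more than
`t` true sources: for example conjunctions and disjunctions of any fan-in, arbitrary functions of `t`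
sources, and thresholds up to `t`. Consider quantum algorithms (finite dimension, arbitrary unitaries, no
uniformity) which make at most `2 ^ ((1 / 2 - ε) w)` queries, in superposition, to the answers `F i φ`.

* Worst case: there is no set `P` of such algorithms with initial states (for example: all pairs which arise
  from a quantum verifier and the possible witness states or strategies of a prover) such that every `φ` far
  from satisfiable is accepted with probability at least `2/3` by some member of `P`, and every satisfiable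
  `φ` is accepted with probability at most `1/3` by all members of `P`.
* Average case: there is a probability distribution on pairs `(φ₀, φ₁)`, `φ₀` far from satisfiable and `φ₁`
  satisfiable, which does not depend on `t` and `F`, such that for every observer who knows `φ₀` (the
  algorithm `V φ₀` with initial state `χ φ₀` may depend on `φ₀` in any way) the acceptance probabilities on
  `φ₀` and on `φ₁` differ by at most `1 / t` on average.

The definitions are in `Pool.Agent.H75.QG.Stmt`, `Pool.Agent.H75.QA.Stmt`, `Pool.Agent.H68.GP.Stmt` and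
`Pool.Agent.H68.AC.Stmt`.
-/

namespace Pool.Agent.H75.QF

open Filter Pool.Agent.H68.AC Pool.Agent.H68.GP Pool.Agent.H75.QA Pool.Agent.H75.QG

theorem worst_and_average :
    ∀ ε : ℝ, 0 < ε → ε ≤ 1 → ∃ c : ℕ, ∀ᶠ n : ℕ in atTop, ∀ d w m : ℕ, 1 ≤ d →
      c * d * Nat.log 2 n ≤ w → c * w ≤ n → n * 2 ^ w ≤ m →
      (∀ (t : ℕ) (κ : Type) [Fintype κ] (s : ℕ) (F : κ → GCircuit (Fin m × Fin n × Bool) s t)
        (P : Set ((V : Verifier κ) × EuclideanSpace ℂ (Fin V.dim))), 1 ≤ t → t ^ (c * d) ≤ 2 ^ w →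
        Fintype.card κ ≤ 2 ^ t → (s : ℝ) ≤ 2 ^ ((1 - ε) * n) → (∀ i, (F i).DepthLE d) →
        (∀ V ∈ P, (V.1.T : ℝ) ≤ 2 ^ ((1 / 2 - ε) * w) ∧ ‖V.2‖ = 1) →
        ¬ ((∀ φ, KCNF w φ → Far ε w φ → ∃ V ∈ P, 2 / 3 ≤ V.1.prob (answersG F φ) V.2) ∧
            ∀ φ, KCNF w φ → Satisfiable φ → ∀ V ∈ P, V.1.prob (answersG F φ) V.2 ≤ 1 / 3)) ∧
      ∃ (Ω : Type) (_ : Fintype Ω) (μ : Ω → ℝ) (φ₀ φ₁ : Ω → Fin m × Fin n × Bool → Bool),
        (∀ ω, 0 ≤ μ ω) ∧ ∑ ω, μ ω = 1 ∧
        (∀ ω, KCNF w (φ₀ ω) ∧ Far ε w (φ₀ ω) ∧ KCNF w (φ₁ ω) ∧ Satisfiable (φ₁ ω)) ∧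
        ∀ (t : ℕ) (κ : Type) [Fintype κ] (s : ℕ) (F : κ → GCircuit (Fin m × Fin n × Bool) s t)
          (V : (Fin m × Fin n × Bool → Bool) → Verifier κ)
          (χ : ∀ φ, EuclideanSpace ℂ (Fin (V φ).dim)), 1 ≤ t → t ^ (c * d) ≤ 2 ^ w →
          Fintype.card κ ≤ 2 ^ t → (s : ℝ) ≤ 2 ^ ((1 - ε) * n) → (∀ i, (F i).DepthLE d) →
          (∀ φ, ((V φ).T : ℝ) ≤ 2 ^ ((1 / 2 - ε) * w)) → (∀ φ, ‖χ φ‖ = 1) →
          ∑ ω, μ ω * |(V (φ₀ ω)).prob (answersG F (φ₁ ω)) (χ (φ₀ ω)) -
            (V (φ₀ ω)).prob (answersG F (φ₀ ω)) (χ (φ₀ ω))| ≤ 1 / t := by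
  intro ε hε hε1
  obtain ⟨c, hc1, hc⟩ := MAINF ε hε hε1
  refine ⟨c, ?_⟩
  filter_upwards [hc, Filter.eventually_ge_atTop 4] with n hn hn4 d w m hd1 hcw hwn hm
  obtain ⟨Ω, hΩ, μ, φ₀, φ₁, h1, h2, h3, h4⟩ := hn d w m hd1 hcw hwn hm
  refine ⟨?_, Ω, hΩ, μ, φ₀, φ₁, h1, h2, h3, h4⟩
  intro t κ _ s F P ht htw hκ hs hd hT ⟨hU, hS⟩
  classical
  have hne : Nonempty Ω := by
    by_contra hempty
    rw [not_nonempty_iff] at hempty
    rw [Finset.univ_eq_empty, Finset.sum_empty] at h2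
    exact zero_ne_one h2
  obtain ⟨ω₁⟩ := hne
  -- a strategy for each formula
  have hw : ∀ φ, ∃ W : (V : Verifier κ) × EuclideanSpace ℂ (Fin V.dim), W ∈ P ∧
      ((∃ ω, φ = φ₀ ω) → 2 / 3 ≤ W.1.prob (answersG F φ) W.2) := by
    intro φ
    by_cases h : ∃ ω, φ = φ₀ ω
    · obtain ⟨ω, rfl⟩ := h
      obtain ⟨W, hW, h6⟩ := hU (φ₀ ω) (h3 ω).1 (h3 ω).2.1
      exact ⟨W, hW, fun _ => h6⟩
    · obtain ⟨W, hW, _⟩ := hU (φ₀ ω₁) (h3 ω₁).1 (h3 ω₁).2.1
      exact ⟨W, hW, fun h' => absurd h' h⟩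
  choose W hW1 hW3 using hw
  -- the value four for t
  have h4w : 4 ^ (c * d) ≤ 2 ^ w := by
    have hlog : 2 ≤ Nat.log 2 n := Nat.le_log_of_pow_le (by norm_num) (by omega)
    have h5 : 2 * (c * d) ≤ w := le_trans (by
      have := Nat.mul_le_mul_left (c * d) hlog
      omega) hcw
    calc 4 ^ (c * d) = 2 ^ (2 * (c * d)) := by rw [pow_mul 2 2 (c * d)]; norm_num
      _ ≤ 2 ^ w := Nat.pow_le_pow_right (by norm_num) h5
  have htm : 1 ≤ max t 4 := le_max_of_le_left ht
  have htmw : (max t 4) ^ (c * d) ≤ 2 ^ w := by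
    rcases le_total t 4 with h | h
    · rw [max_eq_right h]; exact h4w
    · rw [max_eq_left h]; exact htw
  have hans : ∀ φ, answersG (fun i => (F i).lift (le_max_left t 4)) φ = answersG F φ := fun φ =>
    funext fun i => propext (lift_holds (le_max_left t 4) (F i) φ (F i).out)
  have h5 := h4 (max t 4) κ s (fun i => (F i).lift (le_max_left t 4)) (fun φ => (W φ).1)
    (fun φ => (W φ).2) htm htmw (hκ.trans (Nat.pow_le_pow_right (by norm_num) (le_max_left t 4))) hs
    (fun i => hd i) (fun φ => (hT _ (hW1 φ)).1) (fun φ => (hT _ (hW1 φ)).2)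
  simp only [hans] at h5
  have h6 : ∀ ω, (1 / 3 : ℝ) ≤
      |(W (φ₀ ω)).1.prob (answersG F (φ₁ ω)) (W (φ₀ ω)).2 -
        (W (φ₀ ω)).1.prob (answersG F (φ₀ ω)) (W (φ₀ ω)).2| := by
    intro ω
    have h7 := hW3 (φ₀ ω) ⟨ω, rfl⟩
    have h8 := hS (φ₁ ω) (h3 ω).2.2.1 (h3 ω).2.2.2 (W (φ₀ ω)) (hW1 _)
    rw [abs_sub_comm]
    refine le_trans ?_ (le_abs_self _)
    linarith
  have h9 : (1 / 3 : ℝ) ≤ ∑ ω, μ ω *
      |(W (φ₀ ω)).1.prob (answersG F (φ₁ ω)) (W (φ₀ ω)).2 -
        (W (φ₀ ω)).1.prob (answersG F (φ₀ ω)) (W (φ₀ ω)).2| := by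
    calc (1 / 3 : ℝ) = ∑ ω, μ ω * (1 / 3) := by rw [← Finset.sum_mul, h2, one_mul]
      _ ≤ _ := Finset.sum_le_sum (fun ω _ => mul_le_mul_of_nonneg_left (h6 ω) (h1 ω))
  have h10 : 1 / ((max t 4 : ℕ) : ℝ) ≤ 1 / 4 := by
    apply one_div_le_one_div_of_le (by norm_num)
    exact_mod_cast le_max_right t 4
  linarith

end Pool.Agent.H75.QF
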